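import Pool.Agent.Q289.KK.Stm

/-!
# Project KK, the spectral package of a real symmetric matrix
-/

set_option autoImplicit false

namespace Pool.Agent.Q225.KK

open Q289.KK Matrix

section
variable {ι : Type} [Fintype ι]

theorem bdd (M : Matrix ι ι ℝ) :
    BddAbove {t : ℝ | ∃ v : ι → ℝ, dotProduct v v = 1 ∧ t = dotProduct v (M.mulVec v)} := by
  refine ⟨∑ i, ∑ j, |M i j|, ?_⟩
  rintro t ⟨v, hv, rfl⟩
  have h1 : ∀ i, |v i| ≤ 1 := by
    intro i
    have h2 : v i * v i ≤ dotProduct v v :=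
      Finset.single_le_sum (f := fun i => v i * v i) (fun j _ => mul_self_nonneg _)
        (Finset.mem_univ i)
    rw [hv] at h2
    rw [← sq_le_one_iff_abs_le_one]
    nlinarith
  unfold dotProduct mulVec dotProduct
  refine Finset.sum_le_sum fun i _ => ?_
  rw [Finset.mul_sum]
  refine Finset.sum_le_sum fun j _ => ?_
  calc v i * (M i j * v j) ≤ |v i * (M i j * v j)| := le_abs_self _
    _ = |v i| * (|M i j| * |v j|) := by rw [abs_mul, abs_mul]
    _ ≤ 1 * (|M i j| * 1) := by
        gcongr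
        · exact h1 i
        · exact h1 j
    _ = |M i j| := by ring

/-- JOB SpecStm -/
theorem spec : SpecStm := by
  intro ι _ _ M hM
  have hH : M.IsHermitian := by
    unfold Matrix.IsHermitian
    rw [conjTranspose_eq_transpose_of_trivial]
    exact hM
  obtain ⟨lam, hlam⟩ : ∃ lam, lam = hH.eigenvalues := ⟨_, rfl⟩
  obtain ⟨U, hU⟩ : ∃ U : Matrix ι ι ℝ, U = (hH.eigenvectorUnitary : Matrix ι ι ℝ) := ⟨_, rfl⟩
  have hUU : Uᵀ * U = 1 := by
    have h1 := Unitary.coe_star_mul_self hH.eigenvectorUnitary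
    rw [← hU, star_eq_conjTranspose, conjTranspose_eq_transpose_of_trivial] at h1
    exact h1
  have hUU' : U * Uᵀ = 1 := mul_eq_one_comm.1 hUU
  have hspec : M = U * diagonal lam * Uᵀ := by
    have h1 := hH.spectral_theorem
    rw [Unitary.conjStarAlgAut_apply, ← hU, star_eq_conjTranspose,
      conjTranspose_eq_transpose_of_trivial] at h1
    rw [hlam]
    exact h1
  have hpow : ∀ q : ℕ, M ^ q = U * diagonal (fun i => lam i ^ q) * Uᵀ := by
    intro q
    induction q with
    | zero => simp [hUU']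
    | succ q ih =>
      rw [pow_succ, ih]
      conv_lhs => rw [hspec]
      calc U * diagonal (fun i => lam i ^ q) * Uᵀ * (U * diagonal lam * Uᵀ)
          = U * (diagonal (fun i => lam i ^ q) * (Uᵀ * U) * diagonal lam) * Uᵀ := by
            simp only [Matrix.mul_assoc]
        _ = U * diagonal (fun i => lam i ^ (q + 1)) * Uᵀ := by
            rw [hUU, Matrix.mul_one, diagonal_mul_diagonal]
            simp only [pow_succ]
  have hray : ∀ v : ι → ℝ, dotProduct v (M.mulVec v) = ∑ i, lam i * (Uᵀ.mulVec v i) ^ 2 := by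
    intro v
    rw [hspec, ← mulVec_mulVec, ← mulVec_mulVec, dotProduct_mulVec, ← mulVec_transpose]
    unfold dotProduct
    refine Finset.sum_congr rfl fun i _ => ?_
    rw [mulVec_diagonal]
    ring
  have hnorm : ∀ v : ι → ℝ, ∑ i, (Uᵀ.mulVec v i) ^ 2 = dotProduct v v := by
    intro v
    have h1 : ∑ i, (Uᵀ.mulVec v i) ^ 2 = dotProduct (Uᵀ.mulVec v) (Uᵀ.mulVec v) := by
      unfold dotProduct
      exact Finset.sum_congr rfl fun i _ => by ring
    rw [h1, dotProduct_mulVec, ← mulVec_transpose, transpose_transpose, mulVec_mulVec, hUU',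
      one_mulVec]
  have hvec : ∀ i, ∃ v : ι → ℝ, dotProduct v v = 1 ∧ dotProduct v (M.mulVec v) = lam i := by
    intro i
    refine ⟨U.mulVec (Pi.single i 1), ?_, ?_⟩
    · rw [← hnorm, mulVec_mulVec, hUU, one_mulVec, Finset.sum_eq_single i]
      · simp
      · intro j _ hj
        simp [Pi.single_eq_of_ne hj]
      · intro h
        exact absurd (Finset.mem_univ i) h
    · rw [hray, mulVec_mulVec, hUU, one_mulVec, Finset.sum_eq_single i]
      · simp
      · intro j _ hj
        simp [Pi.single_eq_of_ne hj]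
      · intro h
        exact absurd (Finset.mem_univ i) h
  have hle : ∀ i, lam i ≤ lmax M := by
    intro i
    obtain ⟨v, hv, hv'⟩ := hvec i
    exact le_csSup (bdd M) ⟨v, hv, hv'.symm⟩
  refine ⟨lam, hle, ?_, ?_, ?_⟩
  · intro i
    obtain ⟨v, hv, hv'⟩ := hvec i
    refine le_csSup (bdd (-M)) ⟨v, hv, ?_⟩
    rw [neg_mulVec, dotProduct_neg, hv']
  · intro q
    rw [hpow, trace_mul_comm, ← Matrix.mul_assoc, hUU, Matrix.one_mul, trace_diagonal]
  · rintro hne
    obtain ⟨i, hi⟩ := Finite.exists_max lam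
    refine ⟨i, le_antisymm ?_ (hle i)⟩
    refine csSup_le ?_ ?_
    · obtain ⟨v, hv, hv'⟩ := hvec i
      exact ⟨lam i, v, hv, hv'.symm⟩
    · rintro t ⟨v, hv, rfl⟩
      rw [hray]
      calc ∑ j, lam j * (Uᵀ.mulVec v j) ^ 2 ≤ ∑ j, lam i * (Uᵀ.mulVec v j) ^ 2 :=
            Finset.sum_le_sum fun j _ => mul_le_mul_of_nonneg_right (hi j) (sq_nonneg _)
        _ = lam i := by rw [← Finset.mul_sum, hnorm, hv, mul_one]

end

end Pool.Agent.Q225.KK
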