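import Pool.Agent.Q289.KK.Stm
import Pool.Agent.Q166.KK.Chi
import Pool.Agent.H988R2.Gauss
import Pool.Agent.Q225.KK.Spec

/-!
# Project KK, gauge symmetry and the Cameron-Martin formula
-/

set_option autoImplicit false

open MeasureTheory ProbabilityTheory Q289.KK

namespace Pool.Agent.Q225.KK

open Pool.Agent.Q166.KK (int_exp_pi integrable_exp_pi sg_sq card2 LL_sq_integrable)

/-- The Cameron-Martin formula for the product measure. -/
theorem cm {ι : Type} [Fintype ι] (f : (ι → ℝ) → ℝ) (a : ι → ℝ) :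
    ∫ z, f (z + a) ∂(Measure.pi fun _ : ι => gaussianReal 0 1) =
      ∫ z, Real.exp (∑ i, a i * z i - (∑ i, a i ^ 2) / 2) * f z
        ∂(Measure.pi fun _ : ι => gaussianReal 0 1) := by
  have h0 : ∀ g : EuclideanSpace ℝ ι → ℝ, ∫ x, g x ∂(stdGaussian (EuclideanSpace ℝ ι)) =
      ∫ z, g (WithLp.toLp 2 z) ∂(Measure.pi fun _ : ι => gaussianReal 0 1) := by
    intro g
    rw [← map_pi_eq_stdGaussian]
    exact (MeasurableEquiv.toLp 2 (ι → ℝ)).measurableEmbedding.integral_map g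
  have h1 := Pool.Agent.H988R2.integral_stdGaussian_add ι (fun x => f (WithLp.ofLp x))
    (WithLp.toLp 2 a)
  rw [h0, h0] at h1
  have h2 : ∀ z : ι → ℝ, f (WithLp.ofLp (WithLp.toLp 2 z + WithLp.toLp 2 a)) = f (z + a) :=
    fun z => rfl
  simp only [h2] at h1
  rw [h1, ← integral_const_mul]
  refine integral_congr_ae (Filter.Eventually.of_forall fun z => ?_)
  have e1 : inner ℝ (WithLp.toLp 2 z) (WithLp.toLp 2 a) = ∑ i, a i * z i := by
    rw [PiLp.inner_apply]
    refine Finset.sum_congr rfl fun i _ => ?_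
    simp [inner]
  have e2 : ‖WithLp.toLp 2 a‖ ^ 2 = ∑ i, a i ^ 2 := by
    rw [EuclideanSpace.norm_sq_eq]
    simp
  show Real.exp (-‖WithLp.toLp 2 a‖ ^ 2 / 2) *
    (Real.exp (inner ℝ (WithLp.toLp 2 z) (WithLp.toLp 2 a)) * f z) = _
  rw [e1, e2, ← mul_assoc, ← Real.exp_add]
  congr 2
  ring

/-- Conjugation by a diagonal matrix of signs. -/
theorem lmax_conj {ι : Type} [Fintype ι] (M M' : Matrix ι ι ℝ) (s : ι → ℝ)
    (hs : ∀ i, s i * s i = 1) (h : ∀ i j, M' i j = s i * s j * M i j) : lmax M' = lmax M := by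
  have key : ∀ (M M' : Matrix ι ι ℝ), (∀ i j, M' i j = s i * s j * M i j) →
      {t : ℝ | ∃ v : ι → ℝ, dotProduct v v = 1 ∧ t = dotProduct v (M'.mulVec v)} ⊆
      {t : ℝ | ∃ v : ι → ℝ, dotProduct v v = 1 ∧ t = dotProduct v (M.mulVec v)} := by
    rintro M M' h t ⟨v, hv, rfl⟩
    refine ⟨fun i => s i * v i, ?_, ?_⟩
    · rw [← hv]
      unfold dotProduct
      refine Finset.sum_congr rfl fun i _ => ?_
      linear_combination (v i * v i) * hs i
    · unfold dotProduct Matrix.mulVec dotProduct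
      refine Finset.sum_congr rfl fun i _ => ?_
      rw [Finset.mul_sum, Finset.mul_sum]
      refine Finset.sum_congr rfl fun j _ => ?_
      show v i * (M' i j * v j) = s i * v i * (M i j * (s j * v j))
      rw [h]
      ring
  unfold lmax
  congr 1
  refine Set.Subset.antisymm (key M M' h) (key M' M fun i j => ?_)
  rw [h, ← mul_assoc]
  have e : s i * s j * (s i * s j) = (s i * s i) * (s j * s j) := by ring
  rw [e, hs, hs, one_mul, one_mul]

section
variable {n : ℕ}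

theorem sg_symmDiff (x : Fin n → Bool) (I J : Finset (Fin n)) :
    sg x (symmDiff I J) = sg x I * sg x J := by
  classical
  have h1 : ∀ S : Finset (Fin n), sg x S = ∏ i, if i ∈ S then (if x i then (1 : ℝ) else -1) else 1 := by
    intro S
    unfold sg
    rw [Finset.prod_ite_mem, Finset.univ_inter]
  rw [h1, h1, h1, ← Finset.prod_mul_distrib]
  refine Finset.prod_congr rfl fun i _ => ?_
  simp only [Finset.mem_symmDiff]
  by_cases hI : i ∈ I <;> by_cases hJ : i ∈ J <;> cases x i <;> simp [hI, hJ]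

/-- The shift. -/
noncomputable def hx (lam : ℝ) (x : Fin n → Bool) (S : Finset (Fin n)) : ℝ :=
  if S.card = 2 then lam * sg x S else 0

theorem hx_sum (lam : ℝ) (x : Fin n → Bool) (Z : Finset (Fin n) → ℝ) :
    ∑ S, hx lam x S * Z S = lam * ∑ S ∈ Finset.univ.filter
      (fun S : Finset (Fin n) => S.card = 2), sg x S * Z S := by
  rw [Finset.mul_sum, Finset.sum_filter]
  refine Finset.sum_congr rfl fun S _ => ?_
  unfold hx
  split_ifs with h
  · ring
  · simp

theorem hx_sq (lam : ℝ) (x : Fin n → Bool) :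
    ∑ S, hx lam x S ^ 2 = lam ^ 2 * (n.choose 2) := by
  have h1 : ∑ S, hx lam x S ^ 2 = ∑ S ∈ Finset.univ.filter
      (fun S : Finset (Fin n) => S.card = 2), lam ^ 2 := by
    rw [Finset.sum_filter]
    refine Finset.sum_congr rfl fun S _ => ?_
    unfold hx
    split_ifs with h
    · rw [mul_pow, sg_sq, mul_one]
    · simp
  rw [h1, Finset.sum_const, nsmul_eq_mul, card2, mul_comm]

/-- The density. -/
noncomputable def ex (lam : ℝ) (x : Fin n → Bool) (Z : Finset (Fin n) → ℝ) : ℝ :=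
  Real.exp (∑ S, hx lam x S * Z S - (∑ S, hx lam x S ^ 2) / 2)

theorem LL_eq (lam : ℝ) (Z : Finset (Fin n) → ℝ) :
    LL n lam Z = (∑ x : Fin n → Bool, ex lam x Z) / 2 ^ n := by
  unfold LL
  congr 1
  refine Finset.sum_congr rfl fun x _ => ?_
  unfold ex
  rw [hx_sum, hx_sq]

theorem ex_eq (lam : ℝ) (x : Fin n → Bool) (Z : Finset (Fin n) → ℝ) :
    ex lam x Z = Real.exp (∑ S, hx lam x S * Z S) * Real.exp (-((∑ S, hx lam x S ^ 2) / 2)) := by
  unfold ex
  rw [sub_eq_add_neg, Real.exp_add]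

theorem ex_int (lam : ℝ) (x : Fin n → Bool) : Integrable (ex lam x) (G n) := by
  have h1 : ex lam x = fun Z : Finset (Fin n) → ℝ =>
      Real.exp (∑ S, hx lam x S * Z S) * Real.exp (-((∑ S, hx lam x S ^ 2) / 2)) :=
    funext fun Z => ex_eq lam x Z
  rw [h1]
  exact (integrable_exp_pi _).mul_const _

theorem ex_one (lam : ℝ) (x : Fin n → Bool) : ∫ Z, ex lam x Z ∂(G n) = 1 := by
  simp only [ex_eq]
  rw [integral_mul_const, int_exp_pi, ← Real.exp_add, add_neg_cancel, Real.exp_zero]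

theorem ex_memLp (lam : ℝ) (x : Fin n → Bool) : MemLp (ex lam x) 2 (G n) := by
  have hc : Continuous (ex lam x) := by
    unfold ex
    fun_prop
  rw [memLp_two_iff_integrable_sq hc.aestronglyMeasurable]
  have h1 : ∀ Z, ex lam x Z ^ 2 = Real.exp (∑ S, (2 * hx lam x S) * Z S) *
      Real.exp (-(∑ S, hx lam x S ^ 2)) := by
    intro Z
    unfold ex
    rw [← Real.exp_nat_mul, ← Real.exp_add]
    congr 1
    have e : ∑ S, (2 * hx lam x S) * Z S = 2 * ∑ S, hx lam x S * Z S := by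
      rw [Finset.mul_sum]
      exact Finset.sum_congr rfl fun S _ => by ring
    rw [e]
    push_cast
    ring
  simp only [h1]
  exact (integrable_exp_pi _).mul_const _

/-- The gauge transformation. -/
noncomputable def TT (x : Fin n → Bool) (Z : Finset (Fin n) → ℝ) : Finset (Fin n) → ℝ :=
  fun S => sg x S * Z S

theorem TT_invol (x : Fin n → Bool) : Function.Involutive (TT (n := n) x) := by
  intro Z
  funext S
  unfold TT
  rw [← mul_assoc, ← sq, sg_sq, one_mul]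

theorem sg_cases (x : Fin n → Bool) (S : Finset (Fin n)) : sg x S = 1 ∨ sg x S = -1 := by
  have h := sg_sq x S
  have h1 : (sg x S - 1) * (sg x S + 1) = 0 := by linear_combination h
  rcases mul_eq_zero.1 h1 with h2 | h2
  · left; linarith
  · right; linarith

theorem TT_meas (x : Fin n → Bool) : Measurable (TT (n := n) x) := by
  unfold TT
  fun_prop

theorem TT_mp (x : Fin n → Bool) : MeasurePreserving (TT (n := n) x) (G n) (G n) := by
  refine measurePreserving_pi (fun _ => gaussianReal 0 1) (fun _ => gaussianReal 0 1)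
    (f := fun S t => sg x S * t) fun S => ?_
  rcases sg_cases x S with h | h
  · rw [h]
    have e : (fun t : ℝ => (1 : ℝ) * t) = id := by
      funext t
      simp
    show MeasurePreserving (fun t : ℝ => (1 : ℝ) * t) _ _
    rw [e]
    exact MeasurePreserving.id _
  · rw [h]
    refine ⟨by fun_prop, ?_⟩
    have e : (fun t : ℝ => (-1 : ℝ) * t) = fun t => -t := by
      funext t
      simp
    show Measure.map (fun t : ℝ => (-1 : ℝ) * t) _ = _
    rw [e, gaussianReal_map_neg, neg_zero]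

theorem gauge (ℓ : ℕ) (lam : ℝ) (x : Fin n → Bool) (Z : Finset (Fin n) → ℝ) :
    lmax (W 2 ℓ lam Z) = lmax (W 2 ℓ 0 (TT x Z + hx lam x)) := by
  symm
  refine lmax_conj _ _ (fun I : Sb n ℓ => sg x I.1) (fun I => ?_) (fun I J => ?_)
  · rw [← sq, sg_sq]
  · unfold W
    rw [Matrix.of_apply, Matrix.of_apply]
    split_ifs with h
    · rw [← sg_symmDiff, Pi.add_apply]
      unfold TT hx
      rw [if_pos h]
      ring
    · rw [mul_zero]

theorem E_eq (ℓ : ℕ) (lam : ℝ) (x : Fin n → Bool) :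
    E n 2 ℓ lam = ∫ Z, ex lam x Z * lmax (W 2 ℓ 0 Z) ∂(G n) := by
  unfold E
  have h1 : ∫ Z, lmax (W 2 ℓ lam Z) ∂(G n) =
      ∫ Z, lmax (W 2 ℓ 0 (TT x Z + hx lam x)) ∂(G n) :=
    integral_congr_ae (Filter.Eventually.of_forall fun Z => gauge ℓ lam x Z)
  rw [h1]
  have h2 := (TT_mp x).integral_comp
    (MeasurableEquiv.ofInvolutive _ (TT_invol x) (TT_meas x)).measurableEmbedding
    (fun Z => lmax (W 2 ℓ 0 (Z + hx lam x)))
  rw [h2]
  exact cm (fun Z => lmax (W 2 ℓ 0 Z)) (hx lam x)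

theorem cmstm0 (hL : ∀ ℓ : ℕ, MemLp (fun Z => lmax (W 2 ℓ 0 Z)) 2 (G n)) (ℓ : ℕ) (lam : ℝ) :
    Integrable (fun Z => LL n lam Z ^ 2) (G n) ∧
    E n 2 ℓ lam = ∫ Z, lmax (W 2 ℓ 0 Z) * LL n lam Z ∂(G n) ∧
    ∫ Z, LL n lam Z ∂(G n) = 1 := by
  have h2n : (2 : ℝ) ^ n ≠ 0 := by positivity
  have hcard : ((Finset.univ : Finset (Fin n → Bool)).card : ℝ) = 2 ^ n := by
    rw [Finset.card_univ]
    simp
  refine ⟨LL_sq_integrable lam, ?_, ?_⟩
  · have hint : ∀ x : Fin n → Bool, Integrable (fun Z => ex lam x Z * lmax (W 2 ℓ 0 Z)) (G n) :=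
      fun x => (ex_memLp lam x).integrable_mul (hL ℓ)
    have h1 : ∀ Z, lmax (W 2 ℓ 0 Z) * LL n lam Z =
        (∑ x : Fin n → Bool, ex lam x Z * lmax (W 2 ℓ 0 Z)) / 2 ^ n := by
      intro Z
      rw [LL_eq, ← Finset.sum_mul]
      ring
    simp only [h1]
    rw [integral_div, integral_finsetSum _ fun x _ => hint x,
      Finset.sum_congr rfl (fun x _ => (E_eq ℓ lam x).symm), Finset.sum_const, nsmul_eq_mul, hcard]
    field_simp
  · simp only [LL_eq]
    rw [integral_div, integral_finsetSum _ fun x _ => ex_int lam x,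
      Finset.sum_congr rfl (fun x _ => ex_one lam x), Finset.sum_const, nsmul_eq_mul, hcard,
      mul_one, div_self h2n]

theorem lmax_le_add {ι : Type} [Fintype ι] (A B : Matrix ι ι ℝ) :
    lmax A ≤ lmax B + ∑ i, ∑ j, |A i j - B i j| := by
  have hnn : 0 ≤ ∑ i, ∑ j, |A i j - B i j| :=
    Finset.sum_nonneg fun i _ => Finset.sum_nonneg fun j _ => abs_nonneg _
  rcases isEmpty_or_nonempty ι with hι | hι
  · have h1 : ∀ M : Matrix ι ι ℝ, lmax M = 0 := by
      intro M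
      unfold lmax
      have h2 : {t : ℝ | ∃ v : ι → ℝ, dotProduct v v = 1 ∧ t = dotProduct v (M.mulVec v)} = ∅ := by
        ext t
        simp only [Set.mem_ofPred_eq, Set.mem_empty_iff_false, iff_false, not_exists, not_and]
        intro v hv
        unfold dotProduct at hv
        simp at hv
      rw [h2, Real.sSup_empty]
    rw [h1, h1]
    linarith
  · classical
    have hne : {t : ℝ | ∃ v : ι → ℝ, dotProduct v v = 1 ∧ t = dotProduct v (A.mulVec v)}.Nonempty := by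
      obtain ⟨i⟩ := hι
      exact ⟨_, Pi.single i 1, by simp, rfl⟩
    refine csSup_le hne ?_
    rintro t ⟨v, hv, rfl⟩
    have h1 : dotProduct v (B.mulVec v) ≤ lmax B := le_csSup (bdd B) ⟨v, hv, rfl⟩
    have h2 : dotProduct v ((A - B).mulVec v) ≤ ∑ i, ∑ j, |A i j - B i j| := by
      have hv1 : ∀ i, |v i| ≤ 1 := by
        intro i
        have h2 : v i * v i ≤ dotProduct v v :=
          Finset.single_le_sum (f := fun i => v i * v i) (fun j _ => mul_self_nonneg _)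
            (Finset.mem_univ i)
        rw [hv] at h2
        rw [← sq_le_one_iff_abs_le_one]
        nlinarith
      unfold dotProduct Matrix.mulVec dotProduct
      refine Finset.sum_le_sum fun i _ => ?_
      rw [Finset.mul_sum]
      refine Finset.sum_le_sum fun j _ => ?_
      show v i * ((A i j - B i j) * v j) ≤ _
      calc v i * ((A i j - B i j) * v j) ≤ |v i * ((A i j - B i j) * v j)| := le_abs_self _
        _ = |v i| * (|A i j - B i j| * |v j|) := by rw [abs_mul, abs_mul]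
        _ ≤ 1 * (|A i j - B i j| * 1) := by
            gcongr
            · exact hv1 i
            · exact hv1 j
        _ = |A i j - B i j| := by ring
    rw [Matrix.sub_mulVec, dotProduct_sub] at h2
    linarith

theorem W_diff (ℓ : ℕ) (Z Z' : Finset (Fin n) → ℝ) (I J : Sb n ℓ) :
    |W 2 ℓ 0 Z I J - W 2 ℓ 0 Z' I J| ≤ |Z (symmDiff I.1 J.1) - Z' (symmDiff I.1 J.1)| := by
  unfold W
  rw [Matrix.of_apply, Matrix.of_apply]
  split_ifs with h
  · rw [zero_add, zero_add]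
  · rw [sub_zero, abs_zero]
    exact abs_nonneg _

theorem F_lip (ℓ : ℕ) (Z Z' : Finset (Fin n) → ℝ) :
    |lmax (W 2 ℓ 0 Z) - lmax (W 2 ℓ 0 Z')| ≤
      ∑ I : Sb n ℓ, ∑ J : Sb n ℓ, |Z (symmDiff I.1 J.1) - Z' (symmDiff I.1 J.1)| := by
  have h : ∀ Z Z' : Finset (Fin n) → ℝ, lmax (W 2 ℓ 0 Z) - lmax (W 2 ℓ 0 Z') ≤
      ∑ I : Sb n ℓ, ∑ J : Sb n ℓ, |Z (symmDiff I.1 J.1) - Z' (symmDiff I.1 J.1)| := by
    intro Z Z'
    have h1 := lmax_le_add (W 2 ℓ 0 Z) (W 2 ℓ 0 Z')
    have h2 : ∑ I : Sb n ℓ, ∑ J : Sb n ℓ, |W 2 ℓ 0 Z I J - W 2 ℓ 0 Z' I J| ≤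
        ∑ I : Sb n ℓ, ∑ J : Sb n ℓ, |Z (symmDiff I.1 J.1) - Z' (symmDiff I.1 J.1)| :=
      Finset.sum_le_sum fun I _ => Finset.sum_le_sum fun J _ => W_diff ℓ Z Z' I J
    linarith
  rw [abs_le]
  constructor
  · have h1 := h Z' Z
    have h2 : ∑ I : Sb n ℓ, ∑ J : Sb n ℓ, |Z' (symmDiff I.1 J.1) - Z (symmDiff I.1 J.1)| =
        ∑ I : Sb n ℓ, ∑ J : Sb n ℓ, |Z (symmDiff I.1 J.1) - Z' (symmDiff I.1 J.1)| :=
      Finset.sum_congr rfl fun I _ => Finset.sum_congr rfl fun J _ => abs_sub_comm _ _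
    linarith
  · exact h Z Z'

theorem F_cont (ℓ : ℕ) : Continuous fun Z : Finset (Fin n) → ℝ => lmax (W 2 ℓ 0 Z) := by
  have h1 : LipschitzWith (Fintype.card (Sb n ℓ) * Fintype.card (Sb n ℓ))
      (fun Z : Finset (Fin n) → ℝ => lmax (W 2 ℓ 0 Z)) := by
    refine LipschitzWith.of_dist_le_mul fun Z Z' => ?_
    rw [Real.dist_eq]
    refine (F_lip ℓ Z Z').trans ?_
    have h2 : ∀ S, |Z S - Z' S| ≤ dist Z Z' := by
      intro S
      rw [← Real.dist_eq]
      exact dist_le_pi_dist Z Z' S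
    calc ∑ I : Sb n ℓ, ∑ J : Sb n ℓ, |Z (symmDiff I.1 J.1) - Z' (symmDiff I.1 J.1)|
        ≤ ∑ I : Sb n ℓ, ∑ J : Sb n ℓ, dist Z Z' :=
          Finset.sum_le_sum fun I _ => Finset.sum_le_sum fun J _ => h2 _
      _ = _ := by
          simp only [Finset.sum_const, Finset.card_univ, nsmul_eq_mul]
          push_cast
          ring
  exact h1.continuous

theorem F_memLp (ℓ : ℕ) : MemLp (fun Z : Finset (Fin n) → ℝ => lmax (W 2 ℓ 0 Z)) 2 (G n) := by
  have h1 : ∀ S : Finset (Fin n), MemLp (fun Z : Finset (Fin n) → ℝ => |Z S|) 2 (G n) := by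
    intro S
    have h2 : MemLp (id : ℝ → ℝ) 2 (gaussianReal 0 1) := memLp_id_gaussianReal' 2 (by norm_num)
    have h3 := h2.comp_measurePreserving
      (measurePreserving_eval (fun _ : Finset (Fin n) => gaussianReal 0 1) S)
    exact h3.abs
  obtain ⟨c, hc⟩ : ∃ c, c = lmax (W (n := n) 2 ℓ 0 0) := ⟨_, rfl⟩
  have h2 : ∀ I : Sb n ℓ, MemLp (fun Z : Finset (Fin n) → ℝ =>
      ∑ J : Sb n ℓ, |Z (symmDiff I.1 J.1)|) 2 (G n) := fun I =>
    memLp_finsetSum _ fun J _ => h1 (symmDiff I.1 J.1)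
  have h3 : MemLp (fun Z : Finset (Fin n) → ℝ =>
      ∑ I : Sb n ℓ, ∑ J : Sb n ℓ, |Z (symmDiff I.1 J.1)|) 2 (G n) :=
    memLp_finsetSum _ fun I _ => h2 I
  have h4 : MemLp (fun _ : Finset (Fin n) → ℝ => |c|) 2 (G n) := memLp_const _
  refine (h4.add h3).mono (F_cont ℓ).aestronglyMeasurable (Filter.Eventually.of_forall fun Z => ?_)
  have h5 := F_lip ℓ Z 0
  simp only [Pi.zero_apply, sub_zero] at h5
  rw [← hc] at h5
  show ‖lmax (W 2 ℓ 0 Z)‖ ≤ ‖|c| + ∑ I : Sb n ℓ, ∑ J : Sb n ℓ, |Z (symmDiff I.1 J.1)|‖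
  rw [Real.norm_eq_abs, Real.norm_eq_abs]
  refine le_trans ?_ (le_abs_self _)
  have h6 := abs_sub_abs_le_abs_sub (lmax (W 2 ℓ 0 Z)) c
  linarith

end

/-- JOB CMStm -/
theorem cmstm : CMStm := fun n ℓ lam => cmstm0 (n := n) (fun ℓ => F_memLp ℓ) ℓ lam

end Pool.Agent.Q225.KK
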